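import Mathlib

/-!
# Generic logarithms (Theorem G of note 1529): interface between the three parts
-/

set_option autoImplicit false

namespace Pool.Agent.Work.MP_327059_nt.GL

open MvPolynomial

/-- Length of an integer polynomial: the sum of the absolute values of its coefficients. -/
noncomputable def len {σ : Type} (P : MvPolynomial σ ℤ) : ℝ := ∑ m ∈ P.support, |((P.coeff m : ℤ) : ℝ)|

/-- Length of a complex polynomial. -/
noncomputable def lenC {σ : Type} (P : MvPolynomial σ ℂ) : ℝ := ∑ m ∈ P.support, ‖P.coeff m‖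

/-- The transcendence degree of the family `θ` is at most `τ`. -/
def TrLe {σ : Type} (τ : ℕ) (θ : σ → ℂ) : Prop :=
  ∀ s : Fin (τ + 1) → σ, ¬ AlgebraicIndependent ℚ (fun i => θ (s i))

/-- **Criterion of algebraic independence** (arithmetic Lojasiewicz inequality), PART C. -/
def S_Crit : Prop :=
  ∀ (σ : Type) [Fintype σ] (τ : ℕ) (θ : σ → ℂ), TrLe τ θ →
    ∃ C : ℝ, 1 ≤ C ∧ ∀ (X : ℕ) (V : ℝ), 1 ≤ X → C * (X : ℝ) ^ (τ + 1) ≤ V →
      ∀ PP : Set (MvPolynomial σ ℤ),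
        (∀ P ∈ PP, P.totalDegree ≤ X ∧ len P ≤ Real.exp X ∧ ‖aeval θ P‖ ≤ Real.exp (-V)) →
        ∃ θ' : σ → ℂ, (∀ P ∈ PP, aeval θ' P = 0) ∧
          ∀ i, ‖θ' i - θ i‖ ≤ Real.exp (-V / (C * (X : ℝ) ^ τ))

/-- The numbers `l_i` and `e^(b_j l_i)`. -/
noncomputable def cd {n m : ℕ} (b : Fin m → ℂ) (l : Fin n → ℂ) : Fin n ⊕ Fin n × Fin m → ℂ :=
  Sum.elim l (fun p => Complex.exp (b p.2 * l p.1))

/-- **Transcendence input**, PART T. -/
def S_TI : Prop :=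
  ∀ m : ℕ, ∃ n₀ : ℕ, ∀ b : Fin m → ℂ, (∀ j, IsAlgebraic ℚ (b j)) → LinearIndependent ℚ b →
    ∀ n : ℕ, n₀ ≤ n → ∀ l : Fin n → ℂ, LinearIndependent ℚ l →
      (∀ i, IsAlgebraic ℚ (Complex.exp (l i))) →
      (∃ s : Fin m → Fin n ⊕ Fin n × Fin m, AlgebraicIndependent ℚ (fun i => cd b l (s i))) ∧
      (∃ s : Fin (m - 1) → Fin n × Fin m,
        AlgebraicIndependent ℚ (fun i => Complex.exp (b (s i).2 * l (s i).1)))

/-- **Theorem G.** For all logarithms in a large dimensional space outside a hypersurface the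
conjecture of Gel'fond and Schneider holds in full. -/
def S_Main : Prop :=
  ∀ d : ℕ, 2 ≤ d → ∃ n₀ : ℕ, ∀ β : ℂ, IsAlgebraic ℚ β → (minpoly ℚ β).natDegree = d →
    ∀ n : ℕ, n₀ ≤ n → ∀ l : Fin n → ℂ, LinearIndependent ℚ l →
      (∀ i, IsAlgebraic ℚ (Complex.exp (l i))) →
      ∃ P : MvPolynomial (Fin n) ℂ, P ≠ 0 ∧ P.IsHomogeneous d ∧
        ∀ v : Fin n → ℚ, eval (fun i => (v i : ℂ)) P ≠ 0 →
          AlgebraicIndependent ℚ (fun j : Fin d =>
            if (j : ℕ) = 0 then ∑ i, (v i : ℂ) * l i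
            else Complex.exp (β ^ (j : ℕ) * ∑ i, (v i : ℂ) * l i))

end Pool.Agent.Work.MP_327059_nt.GL
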