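import Mathlib
import Pool.Agent.Work.MP_327059_nt.GL.Defs

/-!
# PART C: definitions for the criterion (Chow forms through generic points, everything over `ℂ`)
-/

set_option autoImplicit false

namespace Pool.Agent.Work.MP_327059_nt.GL

open MvPolynomial

/-- Value of a form in `k` groups of variables at complex vectors. -/
noncomputable def ev {k : ℕ} {ι : Type} (w : Fin k → ι → ℂ) (F : MvPolynomial (Fin k × ι) ℤ) : ℂ :=
  aeval (fun p : Fin k × ι => w p.1 p.2) F

/-- The projective point `ζ` has transcendence degree `< k`. -/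
def PTr {ι : Type} (k : ℕ) (ζ : ι → ℂ) : Prop :=
  ∀ j0, ζ j0 ≠ 0 → ∀ s : Fin k → ι, ¬ AlgebraicIndependent ℚ (fun i => ζ (s i) / ζ j0)

/-- `ξ` lies on the projective variety over `ℚ` with generic point `ζ`. -/
def On {ι : Type} (ζ ξ : ι → ℂ) : Prop :=
  ∀ (m : ℕ) (f : MvPolynomial ι ℤ), f.IsHomogeneous m → aeval ζ f = 0 → aeval ξ f = 0

/-- Datum (Chow form through a generic point): `F` is irreducible and generates the ideal of all
relations of the `k` vectors `u i`, all orthogonal to `ζ ≠ 0`, and `ζ` has projective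
transcendence degree `< k`. -/
def Dat {ι : Type} [Fintype ι] {k : ℕ} (F : MvPolynomial (Fin k × ι) ℤ) (u : Fin k → ι → ℂ)
    (ζ : ι → ℂ) : Prop :=
  Irreducible F ∧ ζ ≠ 0 ∧ (∀ i, ∑ j, u i j * ζ j = 0) ∧ (∀ G, ev u G = 0 ↔ F ∣ G) ∧ PTr k ζ

/-- `F` involves the group `0`. -/
def Inv0 {ι : Type} {k : ℕ} (F : MvPolynomial (Fin (k + 1) × ι) ℤ) : Prop :=
  ∃ j, F.degreeOf (0, j) ≠ 0

/-- `H` is the resultant of `F` (group `0`) and the homogeneous polynomial `P` of degree `δ`: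
for all values `w` of the other groups, `F(U, w)` is a product of `d` linear forms and `H(w)` is
the product of the values of `P` at the corresponding points. -/
def Rel {ι : Type} [Fintype ι] {k : ℕ} (F : MvPolynomial (Fin (k + 1) × ι) ℤ)
    (H : MvPolynomial (Fin k × ι) ℤ) (P : MvPolynomial ι ℤ) (δ d : ℕ) : Prop :=
  ∀ w : Fin k → ι → ℂ, ∃ (a : ℂ) (ξ : Fin d → ι → ℂ),
    (∀ U : ι → ℂ, ev (Fin.cons U w : Fin (k + 1) → ι → ℂ) F = a * ∏ t, ∑ j, U j * ξ t j) ∧
      ev w H = a ^ δ * ∏ t, aeval (ξ t) P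

/-- The point `(1, θ)`. -/
def hat {σ : Type} (θ : σ → ℂ) : Option σ → ℂ := fun o => o.elim 1 θ

/-- The vector orthogonal to `(1, θ)` with coordinates `W` (other than the first). -/
def perp {σ : Type} [Fintype σ] (θ W : σ → ℂ) : Option σ → ℂ :=
  fun o => o.elim (-∑ j, θ j * W j) W

/-- Restriction of the form `F` to vectors orthogonal to `(1, θ)`. -/
noncomputable def th {σ : Type} [Fintype σ] {k : ℕ} (θ : σ → ℂ)
    (F : MvPolynomial (Fin k × Option σ) ℤ) : MvPolynomial (Fin k × σ) ℂ :=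
  aeval (fun p : Fin k × Option σ =>
    p.2.elim (-∑ j, C (θ j) * X (p.1, j)) (fun j => (X (p.1, j) : MvPolynomial (Fin k × σ) ℂ))) F

/-- Homogenisation to degree `X` (meaningful for `totalDegree P ≤ X`). -/
noncomputable def hom {σ : Type} (X : ℕ) (P : MvPolynomial σ ℤ) : MvPolynomial (Option σ) ℤ :=
  ∑ m ∈ P.support, monomial (m.embDomain Function.Embedding.some +
    Finsupp.single none (X - m.sum fun _ e => e)) (P.coeff m)

/-- `ξ` is a conjugate of `ζ` over `ℚ(y)`. -/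
def Cj {ι n : Type} (y : n → ℂ) (ζ ξ : ι → ℂ) : Prop :=
  ∀ f : MvPolynomial (ι ⊕ n) ℤ, aeval (Sum.elim ζ y) f = 0 ↔ aeval (Sum.elim ξ y) f = 0

/-- `x` is algebraic over `ℚ(y)`. -/
def AlgOver {n : Type} (y : n → ℂ) (x : ℂ) : Prop :=
  IsAlgebraic (IntermediateField.adjoin ℚ (Set.range y)) x

/-- `g` is homogeneous of degree `m` in the first block of variables. -/
def HomL {ι n : Type} (m : ℕ) (g : MvPolynomial (ι ⊕ n) ℤ) : Prop :=
  ∀ (c : ℂ) (ξ : ι → ℂ) (w : n → ℂ),
    aeval (Sum.elim (c • ξ) w) g = c ^ m * aeval (Sum.elim ξ w) g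

/-- Reindexing: group `0` becomes the left block. -/
def re {ι : Type} (k : ℕ) : Fin (k + 1) × ι → ι ⊕ (Fin k × ι) :=
  fun p => Fin.cases (motive := fun _ => ι ⊕ (Fin k × ι)) (Sum.inl p.2)
    (fun i => Sum.inr (i, p.2)) p.1

end Pool.Agent.Work.MP_327059_nt.GL
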