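import Mathlib
import Pool.Agent.Work.MP_327059_nt.GL.Defs

/-!
# PART T: definitions for the transcendence input
-/

set_option autoImplicit false

namespace Pool.Agent.Work.MP_327059_nt.GL

open MvPolynomial

/-- The point `(∏_i y_i0^{s_i}, …, ∏_i y_i(m-1)^{s_i}, ∑ s_i l_i)`. -/
noncomputable def pt {n m : ℕ} (l : Fin n → ℂ) (y : Fin n → Fin m → ℂ) (s : Fin n → ℕ) :
    Fin (m + 1) → ℂ :=
  Fin.snoc (α := fun _ => ℂ) (fun j => ∏ i, y i j ^ s i) (∑ i, (s i : ℂ) * l i)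

/-- Translation operator `P(X_j, z) ↦ P(c_j X_j, z + t)`. -/
noncomputable def tr {m : ℕ} (c : Fin m → ℂ) (t : ℂ) :
    MvPolynomial (Fin (m + 1)) ℂ →ₐ[ℂ] MvPolynomial (Fin (m + 1)) ℂ :=
  aeval (Fin.snoc (α := fun _ => MvPolynomial (Fin (m + 1)) ℂ)
    (fun j : Fin m => C (c j) * X j.castSucc) (X (Fin.last m) + C t))

/-- Multiplicative relations in a box. -/
noncomputable def cntY {n m : ℕ} (S : ℕ) (y : Fin n → Fin m → ℂ) (w : Fin m → ℤ) : ℕ :=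
  Set.ncard {s : Fin n → ℤ | (∀ i, |s i| ≤ (S : ℤ)) ∧ ∏ i, ∏ j, y i j ^ (s i * w j) = 1}

/-- Additive relations in a box. -/
noncomputable def cntL {n : ℕ} (S : ℕ) (l : Fin n → ℂ) : ℕ :=
  Set.ncard {s : Fin n → ℤ | (∀ i, |s i| ≤ (S : ℤ)) ∧ ∑ i, (s i : ℂ) * l i = 0}

/-- Index set of the one variable functions `z^a e^{b_w z}`, `a < A`, `w_j < W`. -/
abbrev Ix (m A W : ℕ) : Type := Fin A × (Fin m → Fin W)

/-- The linear form `b_w = ∑ w_j b_j`. -/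
noncomputable def bw {m A W : ℕ} (b : Fin m → ℂ) (x : Ix m A W) : ℂ :=
  ∑ j, ((x.2 j : ℕ) : ℂ) * b j

/-- The integer polynomial `P_s` (variables: `inl i ↔ l_i`, `inr (i,j) ↔ e^{b_j l_i}`). -/
noncomputable def PS {n m A W G : ℕ} (p : (Fin G → Ix m A W) → ℤ) (s : Fin G → Fin n → ℕ) :
    MvPolynomial (Fin n ⊕ Fin n × Fin m) ℤ :=
  ∑ x : Fin G → Ix m A W, C (p x) * ∏ r : Fin G,
    ((∑ i, C ((s r i : ℕ) : ℤ) * X (Sum.inl i)) ^ ((x r).1 : ℕ) *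
      ∏ i, ∏ j, X (Sum.inr (i, j)) ^ (((x r).2 j : ℕ) * s r i))

end Pool.Agent.Work.MP_327059_nt.GL
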