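import Mathlib
import Pool.Agent.Work.MP_327059_nt.GL.DefsT

/-!
# PART T: statements of the items
-/

set_option autoImplicit false

namespace Pool.Agent.Work.MP_327059_nt.GL

open MvPolynomial

/-! ## Zero estimate -/

/-- T01: elimination of the first variable -/
def S_ZRes : Prop := ∀ (N B : ℕ) (P Q : MvPolynomial (Fin (N + 1)) ℂ), P ≠ 0 → Q ≠ 0 →
  (∀ i, P.degreeOf i ≤ B) → (∀ i, Q.degreeOf i ≤ B) →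
    (∃ f : MvPolynomial (Fin (N + 1)) ℂ, Irreducible f ∧ f ∣ P ∧ f ∣ Q ∧ f.degreeOf 0 ≠ 0) ∨
    (∃ R : MvPolynomial (Fin N) ℂ, R ≠ 0 ∧ (∀ i, R.degreeOf i ≤ 2 * B * B) ∧
      ∃ a b : MvPolynomial (Fin (N + 1)) ℂ, rename Fin.succ R = a * P + b * Q)

/-- T02: the translation operator -/
def S_Tr : Prop := ∀ (m : ℕ) (c : Fin m → ℂ) (t : ℂ), (∀ j, c j ≠ 0) →
  (∀ (z : Fin m → ℂ) (z0 : ℂ) (P : MvPolynomial (Fin (m + 1)) ℂ),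
    eval (Fin.snoc (α := fun _ => ℂ) z z0) (tr c t P) =
      eval (Fin.snoc (α := fun _ => ℂ) (fun j => c j * z j) (z0 + t)) P) ∧
  (∀ (P : MvPolynomial (Fin (m + 1)) ℂ) (i : Fin (m + 1)), (tr c t P).degreeOf i = P.degreeOf i) ∧
  (∀ (c' : Fin m → ℂ) (t' : ℂ) (P : MvPolynomial (Fin (m + 1)) ℂ),
    tr c t (tr c' t' P) = tr (fun j => c j * c' j) (t + t') P) ∧
  (∀ P : MvPolynomial (Fin (m + 1)) ℂ, Irreducible (tr c t P) ↔ Irreducible P) ∧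
  (∀ (P : MvPolynomial (Fin (m + 1)) ℂ) (a : ℂ), tr c t P = C a * P →
    ∀ d ∈ P.support, ∀ d' ∈ P.support,
      ∏ j : Fin m, c j ^ (d j.castSucc) = ∏ j : Fin m, c j ^ (d' j.castSucc))

/-- T03: base case -/
def S_ZE0 : Prop := ∀ (n S B : ℕ) (l : Fin n → ℂ) (y : Fin n → Fin 0 → ℂ)
  (P : MvPolynomial (Fin 1) ℂ), P ≠ 0 → P.degreeOf 0 ≤ B →
    (∀ s : Fin n → ℕ, (∀ i, s i ≤ S) → eval (pt l y s) P = 0) →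
      (S + 1) ^ n ≤ B * cntL S l

/-- T04: the dichotomy -/
def S_ZStep : Prop := ∀ (m n S S' B : ℕ) (l : Fin n → ℂ) (y : Fin n → Fin (m + 1) → ℂ)
  (P : MvPolynomial (Fin (m + 2)) ℂ), (∀ i j, y i j ≠ 0) → P ≠ 0 → 1 ≤ B →
  (∀ i, P.degreeOf i ≤ B) →
  (∀ s : Fin n → ℕ, (∀ i, s i ≤ S + S') → eval (pt l y s) P = 0) →
    (∃ w : Fin (m + 1) → ℤ, w ≠ 0 ∧ (∀ j, |w j| ≤ (B : ℤ)) ∧
      (S + 1) ^ n ≤ B * B * cntY S y w) ∨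
    (∃ R : MvPolynomial (Fin (m + 1)) ℂ, R ≠ 0 ∧ (∀ i, R.degreeOf i ≤ 2 * B * B) ∧
      ∀ s : Fin n → ℕ, (∀ i, s i ≤ S') → eval (pt l (fun i j => y i j.succ) s) R = 0)

/-- T05: the zero estimate -/
def S_ZE : Prop := ∀ m : ℕ, ∃ c : ℕ, ∀ (n S B : ℕ) (l : Fin n → ℂ) (y : Fin n → Fin m → ℂ)
  (P : MvPolynomial (Fin (m + 1)) ℂ), (∀ i j, y i j ≠ 0) → P ≠ 0 → 1 ≤ B →
  (∀ i, P.degreeOf i ≤ B) →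
  (∀ s : Fin n → ℕ, (∀ i, s i ≤ 2 ^ m * S) → eval (pt l y s) P = 0) →
    (∃ w : Fin m → ℤ, w ≠ 0 ∧ (∀ j, |w j| ≤ ((2 * B) ^ c : ℕ)) ∧
      (S + 1) ^ n ≤ (2 * B) ^ c * cntY S y w) ∨
    (S + 1) ^ n ≤ (2 * B) ^ c * cntL S l

/-! ## Lower bounds and lattices -/

/-- T06 -/
def S_RankBox : Prop := ∀ (n S r : ℕ) (V : Submodule ℚ (Fin n → ℚ)), Module.finrank ℚ V ≤ r →
  Set.ncard {s : Fin n → ℤ | (∀ i, |s i| ≤ (S : ℤ)) ∧ (fun i => (s i : ℚ)) ∈ V} ≤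
    (2 * S + 1) ^ r

/-- T07: many points give many independent points -/
def S_ManyInd : Prop := ∀ (n S r : ℕ) (Λ : Set (Fin n → ℤ)),
  (2 * S + 1) ^ r < Set.ncard {s : Fin n → ℤ | (∀ i, |s i| ≤ (S : ℤ)) ∧ s ∈ Λ} →
    ∃ t : Fin (r + 1) → Fin n → ℤ, (∀ k, t k ∈ Λ) ∧ (∀ k i, |t k i| ≤ (S : ℤ)) ∧
      LinearIndependent ℚ (fun k => (fun i => (t k i : ℚ) : Fin n → ℚ))

/-- T08: trivial Liouville bound for logarithms -/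
def S_LiL : Prop := ∀ (n : ℕ) (l : Fin n → ℂ), LinearIndependent ℚ l →
  (∀ i, IsAlgebraic ℚ (Complex.exp (l i))) → ∃ B : ℝ, 1 ≤ B ∧ ∀ s : Fin n → ℤ, s ≠ 0 →
    ∀ S : ℝ, (∀ i, |(s i : ℝ)| ≤ S) → Real.exp (-(B * S)) ≤ ‖∑ i, (s i : ℂ) * l i‖

/-- T09: Liouville bound for linear forms in algebraic numbers -/
def S_LiB : Prop := ∀ (m : ℕ) (b : Fin m → ℂ), (∀ j, IsAlgebraic ℚ (b j)) →
  LinearIndependent ℚ b → ∃ c : ℕ, ∀ w : Fin m → ℤ, w ≠ 0 → ∀ W : ℝ, 2 ≤ W →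
    (∀ j, |(w j : ℝ)| ≤ W) → (W ^ c)⁻¹ ≤ ‖∑ j, (w j : ℂ) * b j‖

/-- T10 -/
def S_Sieg : Prop := ∀ (ρ K T : ℕ) (k : Fin ρ → ℤ), (∀ i, |k i| ≤ (K : ℤ)) →
  2 * ρ * T * K + 1 < (T + 1) ^ ρ →
    ∃ c : Fin ρ → ℤ, c ≠ 0 ∧ (∀ i, |c i| ≤ (T : ℤ)) ∧ ∑ i, c i * k i = 0

/-- T11 -/
def S_Pert : Prop := ∀ (ι : Type) [Fintype ι] (a : ι → ℂ), (∀ i, a i ≠ 0) →
  ∃ B : ℝ, 1 ≤ B ∧ ∀ (ε : ℝ) (E : ℕ) (a' : ι → ℂ) (e : ι → ℤ), 0 ≤ ε → (∀ i, ‖a' i - a i‖ ≤ ε) →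
    (∀ i, |e i| ≤ (E : ℤ)) → B * E * ε ≤ 1 → B * ε ≤ 1 → ∏ i, a' i ^ e i = 1 →
      ‖∏ i, a i ^ e i - 1‖ ≤ B * E * ε

/-- T12 -/
def S_NearLog : Prop := ∀ z : ℂ, ‖Complex.exp z - 1‖ ≤ 1 / 2 →
  ∃ k : ℤ, ‖z - 2 * Real.pi * Complex.I * k‖ ≤ 2 * ‖Complex.exp z - 1‖

/-- T13: multiplicative relations close to the true point are impossible -/
def S_NoRelY : Prop := ∀ (m q c : ℕ), ∃ n₀ : ℕ, ∀ b : Fin m → ℂ, (∀ j, IsAlgebraic ℚ (b j)) →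
  LinearIndependent ℚ b → ∀ n : ℕ, n₀ ≤ n → ∀ l : Fin n → ℂ, LinearIndependent ℚ l →
    (∀ i, IsAlgebraic ℚ (Complex.exp (l i))) →
    ∃ T₀ : ℕ, ∀ T : ℕ, T₀ ≤ T → ∀ y' : Fin n → Fin m → ℂ,
      (∀ i j, ‖y' i j - Complex.exp (b j * l i)‖ ≤ Real.exp (-(T : ℝ) ^ 3)) →
      ∀ w : Fin m → ℤ, w ≠ 0 → (∀ j, |w j| ≤ ((2 * T ^ q) ^ c : ℕ)) →
        (2 * T ^ q) ^ c * cntY T y' w < (T + 1) ^ n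

/-- T14: additive relations close to the true point are impossible -/
def S_NoRelL : Prop := ∀ (q c : ℕ), ∃ n₀ : ℕ, ∀ n : ℕ, n₀ ≤ n → ∀ l : Fin n → ℂ,
  LinearIndependent ℚ l → (∀ i, IsAlgebraic ℚ (Complex.exp (l i))) →
    ∃ T₀ : ℕ, ∀ T : ℕ, T₀ ≤ T → ∀ l' : Fin n → ℂ,
      (∀ i, ‖l' i - l i‖ ≤ Real.exp (-(T : ℝ) ^ 3)) →
        (2 * T ^ q) ^ c * cntL T l' < (T + 1) ^ n

/-- T15: no polynomial of degree `≤ T^q` vanishes on the perturbed points -/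
def S_NoZero : Prop := ∀ (m q : ℕ), ∃ n₀ : ℕ, ∀ b : Fin m → ℂ, (∀ j, IsAlgebraic ℚ (b j)) →
  LinearIndependent ℚ b → ∀ n : ℕ, n₀ ≤ n → ∀ l : Fin n → ℂ, LinearIndependent ℚ l →
    (∀ i, IsAlgebraic ℚ (Complex.exp (l i))) →
    ∃ T₀ : ℕ, ∀ T : ℕ, T₀ ≤ T → ∀ (l' : Fin n → ℂ) (y' : Fin n → Fin m → ℂ),
      (∀ i, ‖l' i - l i‖ ≤ Real.exp (-(T : ℝ) ^ 3)) →
      (∀ i j, ‖y' i j - Complex.exp (b j * l i)‖ ≤ Real.exp (-(T : ℝ) ^ 3)) →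
      ∀ P : MvPolynomial (Fin (m + 1)) ℂ, (∀ i, P.degreeOf i ≤ T ^ q) →
        (∀ s : Fin n → ℕ, (∀ i, s i ≤ 2 ^ m * T) → eval (pt l' y' s) P = 0) → P = 0

/-! ## Construction -/

/-- T16: pigeonhole for products of one variable functions -/
def S_PLm : Prop := ∀ (N : Type) [Fintype N] (G K h : ℕ) (c : N → ℕ → ℂ) (R A : ℝ), 0 ≤ R →
  1 ≤ A → 1 ≤ K → 1 ≤ G → (∀ x k, ‖c x k‖ * R ^ k ≤ A / 2 ^ k) →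
  4 * K ^ (G + 1) ≤ h * Fintype.card N ^ G →
    ∃ p : (Fin G → N) → ℤ, p ≠ 0 ∧ (∀ x, |p x| ≤ (2 : ℤ) ^ h) ∧
      ∀ z : Fin G → ℂ, (∀ i, ‖z i‖ ≤ R) →
        ‖∑ x : Fin G → N, (p x : ℂ) * ∏ i, ∑' k, c (x i) k * z i ^ k‖ ≤
          (4 * (K : ℝ) ^ G + G * 4 ^ G) * ((Fintype.card N : ℝ) ^ G * 2 ^ h * A ^ G) / 2 ^ K

/-- T17: Taylor coefficients of `z^a e^{βz}` -/
def S_Tay : Prop := ∀ (a A0 : ℕ) (β : ℂ) (R β0 : ℝ), 1 ≤ R → a ≤ A0 → ‖β‖ ≤ β0 →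
  ∃ c : ℕ → ℂ, (∀ z : ℂ, HasSum (fun k => c k * z ^ k) (z ^ a * Complex.exp (β * z))) ∧
    ∀ k, ‖c k‖ * R ^ k ≤ (2 * R) ^ A0 * Real.exp (2 * R * β0) / 2 ^ k

/-- T18: the auxiliary function; `M = m + e`, `G = M + 1` variables, `q = (M+2)^2` -/
def S_Psi : Prop := ∀ (m e : ℕ), e ≤ 1 → 2 ≤ m + e → ∀ (b : Fin m → ℂ) (R0 : ℝ), 1 ≤ R0 →
  ∃ T₀ : ℕ, ∀ T : ℕ, T₀ ≤ T →
    ∃ p : (Fin (m + e + 1) → Ix m (T ^ ((m + e + 2) ^ 2 * e)) (T ^ ((m + e + 2) ^ 2))) → ℤ,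
      p ≠ 0 ∧ (∀ x, |p x| ≤ (2 : ℤ) ^ (T ^ ((m + e + 2) ^ 2 + 1))) ∧
      ∀ z : Fin (m + e + 1) → ℂ, (∀ i, ‖z i‖ ≤ R0 * T) →
        ‖∑ x, (p x : ℂ) * ∏ i, (z i ^ ((x i).1 : ℕ) * Complex.exp (bw b (x i) * z i))‖ ≤
          Real.exp (-((T : ℝ) ^ (((m + e + 2) ^ 2 + 1) * (m + e - 1) + 2) / 4))

/-- T19: values and sizes of the polynomials `P_s` -/
def S_Val : Prop := ∀ (n m A W G : ℕ) (p : (Fin G → Ix m A W) → ℤ) (s : Fin G → Fin n → ℕ),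
  (∀ (l' : Fin n → ℂ) (y' : Fin n → Fin m → ℂ),
    aeval (Sum.elim l' (fun q => y' q.1 q.2)) (PS p s) =
      ∑ x, (p x : ℂ) * ∏ r, (pt l' y' (s r) (Fin.last m) ^ ((x r).1 : ℕ) *
        ∏ j : Fin m, pt l' y' (s r) j.castSucc ^ ((x r).2 j : ℕ))) ∧
  (∀ (b : Fin m → ℂ) (l : Fin n → ℂ), aeval (cd b l) (PS p s) =
      ∑ x, (p x : ℂ) * ∏ r, ((∑ i, (s r i : ℂ) * l i) ^ ((x r).1 : ℕ) *
        Complex.exp (bw b (x r) * ∑ i, (s r i : ℂ) * l i))) ∧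
  (∀ S : ℕ, (∀ r i, s r i ≤ S) →
    (PS p s).totalDegree ≤ G * (A + W * S * n * m)) ∧
  (∀ (S : ℕ) (H : ℝ), 1 ≤ S → 1 ≤ n → (∀ r i, s r i ≤ S) → (∀ x, |(p x : ℝ)| ≤ H) →
    len (PS p s) ≤ ((A : ℝ) * W ^ m) ^ G * H * ((n : ℝ) * S) ^ (A * G))

/-- T20: one factor at a time -/
def S_Tensor : Prop := ∀ (N κ : Type) [Fintype N] (G : ℕ) (f : N → κ → ℂ)
  (p : (Fin G → N) → ℂ), p ≠ 0 →
  (∀ x : Fin G → κ, ∑ a : Fin G → N, p a * ∏ i, f (a i) (x i) = 0) →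
    ∃ r : N → ℂ, r ≠ 0 ∧ ∀ x : κ, ∑ a, r a * f a x = 0

/-- T21: (a) and (b) together -/
def S_TIe : Prop := ∀ (m e : ℕ), e ≤ 1 → 2 ≤ m + e → ∃ n₀ : ℕ, ∀ b : Fin m → ℂ,
  (∀ j, IsAlgebraic ℚ (b j)) → LinearIndependent ℚ b → ∀ n : ℕ, n₀ ≤ n → ∀ l : Fin n → ℂ,
    LinearIndependent ℚ l → (∀ i, IsAlgebraic ℚ (Complex.exp (l i))) →
      (e = 1 → ¬ TrLe (m + e - 2) (cd b l)) ∧
      (e = 0 → ¬ TrLe (m + e - 2) (fun q : Fin n × Fin m => Complex.exp (b q.2 * l q.1)))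

end Pool.Agent.Work.MP_327059_nt.GL
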