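import Mathlib
import Pool.Agent.Work.MP_327059_nt.GL.StmtsT

/-!
# T21: large transcendence degree
-/

set_option autoImplicit false

namespace Pool.Agent.Work.MP_327059_nt.GL

open MvPolynomial

namespace TIe

lemma totalDegree_le_rename {σ τ : Type} {f : σ → τ} (hf : Function.Injective f)
    (P : MvPolynomial σ ℤ) : P.totalDegree ≤ (rename f P).totalDegree := by
  classical
  apply Finset.sup_le
  intro d hd
  have h1 : Finsupp.mapDomain f d ∈ (rename f P).support := by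
    rw [support_rename_of_injective hf]
    exact Finset.mem_image_of_mem _ hd
  have h2 := le_totalDegree h1
  rw [Finsupp.sum_mapDomain_index_inj hf] at h2
  exact h2

lemma len_rename {σ τ : Type} {f : σ → τ} (hf : Function.Injective f)
    (P : MvPolynomial σ ℤ) : len (rename f P) = len P := by
  classical
  unfold len
  rw [support_rename_of_injective hf,
    Finset.sum_image (fun x _ y _ h => Finsupp.mapDomain_injective hf h)]
  refine Finset.sum_congr rfl (fun d _ => ?_)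
  rw [coeff_rename_mapDomain f hf]

lemma ren0 {n m A W G : ℕ} (hA : A ≤ 1) (p : (Fin G → Ix m A W) → ℤ) (s : Fin G → Fin n → ℕ) :
    ∃ P' : MvPolynomial (Fin n × Fin m) ℤ, rename Sum.inr P' = PS p s := by
  refine ⟨∑ x : Fin G → Ix m A W, C (p x) * ∏ r : Fin G,
      ∏ i, ∏ j, X (i, j) ^ (((x r).2 j : ℕ) * s r i), ?_⟩
  unfold PS
  rw [map_sum]
  refine Finset.sum_congr rfl (fun x _ => ?_)
  rw [map_mul, map_prod, rename_C]
  congr 1
  refine Finset.prod_congr rfl (fun r _ => ?_)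
  have h0 : ((x r).1 : ℕ) = 0 := by
    have := (x r).1.isLt
    omega
  rw [h0, pow_zero, one_mul, map_prod]
  refine Finset.prod_congr rfl (fun i _ => ?_)
  rw [map_prod]
  refine Finset.prod_congr rfl (fun j _ => ?_)
  rw [map_pow, rename_X]

lemma pow_le_exp (a : ℝ) (ha : 0 ≤ a) (k : ℕ) : a ^ k ≤ Real.exp (a * k) := by
  have h1 : a ≤ Real.exp a := by have := Real.add_one_le_exp a; linarith
  calc a ^ k ≤ (Real.exp a) ^ k := pow_le_pow_left₀ ha h1 k
    _ = Real.exp (a * k) := by rw [← Real.exp_nat_mul]; ring_nf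

/-- the exponent vector -/
noncomputable def D {m A W : ℕ} (x : Ix m A W) : Fin (m + 1) →₀ ℕ :=
  Finsupp.equivFunOnFinite.symm (Fin.snoc (α := fun _ => ℕ) (fun j => ((x.2 j : ℕ))) (x.1 : ℕ))

lemma D_last {m A W : ℕ} (x : Ix m A W) : D x (Fin.last m) = x.1 := by simp [D]

lemma D_cast {m A W : ℕ} (x : Ix m A W) (j : Fin m) : D x j.castSucc = x.2 j := by simp [D]

lemma D_inj {m A W : ℕ} : Function.Injective (D : Ix m A W → _) := by
  intro x y h
  apply Prod.ext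
  · apply Fin.ext
    rw [← D_last x, ← D_last y, h]
  · funext j
    apply Fin.ext
    rw [← D_cast x, ← D_cast y, h]

lemma noQ {m A W B : ℕ} (hA : A ≤ B) (hW : W ≤ B) (r : Ix m A W → ℂ) (hr : r ≠ 0)
    (K : Set (Fin (m + 1) → ℂ))
    (hK : ∀ v ∈ K, ∑ x, r x * (v (Fin.last m) ^ (x.1 : ℕ) * ∏ j : Fin m, v j.castSucc ^ (x.2 j : ℕ)) = 0) :
    ∃ Q : MvPolynomial (Fin (m + 1)) ℂ, Q ≠ 0 ∧ (∀ i, Q.degreeOf i ≤ B) ∧
      ∀ v ∈ K, eval v Q = 0 := by
  classical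
  have hco : ∀ d, coeff d (∑ x : Ix m A W, monomial (D x) (r x)) =
      ∑ x : Ix m A W, if D x = d then r x else 0 := by
    intro d
    rw [coeff_sum]
    simp [coeff_monomial]
  refine ⟨∑ x : Ix m A W, monomial (D x) (r x), ?_, ?_, ?_⟩
  · obtain ⟨x0, hx0⟩ := Function.ne_iff.1 hr
    intro h0
    apply hx0
    have h1 := congrArg (coeff (D x0)) h0
    rw [hco] at h1
    have h2 : (∑ x : Ix m A W, if D x = D x0 then r x else 0) = r x0 := by
      rw [Finset.sum_eq_single x0]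
      · simp
      · intro y _ hy
        rw [if_neg (fun h => hy (D_inj h))]
      · simp
    rw [h2] at h1
    simpa using h1
  · intro i
    rw [degreeOf_le_iff]
    intro d hd
    rw [mem_support_iff, hco] at hd
    obtain ⟨x, _, hx⟩ := Finset.exists_ne_zero_of_sum_ne_zero hd
    have hdx : D x = d := by
      by_contra hne
      exact hx (if_neg hne)
    rw [← hdx]
    refine Fin.lastCases ?_ (fun j => ?_) i
    · rw [D_last]; have := x.1.isLt; omega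
    · rw [D_cast]; have := (x.2 j).isLt; omega
  · intro v hv
    rw [map_sum, ← hK v hv]
    refine Finset.sum_congr rfl (fun x _ => ?_)
    rw [eval_monomial, Finsupp.prod_fintype _ _ (by simp), Fin.prod_univ_castSucc, D_last]
    simp only [D_cast]
    ring

theorem core (h1 : S_Crit) (h3 : S_Val) (h4 : S_Tensor) (m M q e : ℕ) (hM : 2 ≤ M) (hq : 1 ≤ q)
    (he : e ≤ 1) (n : ℕ) (hn : 1 ≤ n) (b : Fin m → ℂ) (l : Fin n → ℂ)
    (hPsi : ∀ R0 : ℝ, 1 ≤ R0 → ∃ T₀ : ℕ, ∀ T : ℕ, T₀ ≤ T →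
      ∃ p : (Fin (M + 1) → Ix m (T ^ (q * e)) (T ^ q)) → ℤ,
        p ≠ 0 ∧ (∀ x, |p x| ≤ (2 : ℤ) ^ (T ^ (q + 1))) ∧
        ∀ z : Fin (M + 1) → ℂ, (∀ i, ‖z i‖ ≤ R0 * T) →
          ‖∑ x, (p x : ℂ) * ∏ i, (z i ^ ((x i).1 : ℕ) * Complex.exp (bw b (x i) * z i))‖ ≤
            Real.exp (-((T : ℝ) ^ ((q + 1) * (M - 1) + 2) / 4)))
    (hNZ : ∃ T₀ : ℕ, ∀ T : ℕ, T₀ ≤ T → ∀ (l' : Fin n → ℂ) (y' : Fin n → Fin m → ℂ),
      (∀ i, ‖l' i - l i‖ ≤ Real.exp (-(T : ℝ) ^ 3)) →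
      (∀ i j, ‖y' i j - Complex.exp (b j * l i)‖ ≤ Real.exp (-(T : ℝ) ^ 3)) →
      ∀ P : MvPolynomial (Fin (m + 1)) ℂ, (∀ i, P.degreeOf i ≤ T ^ q) →
        (∀ s : Fin n → ℕ, (∀ i, s i ≤ 2 ^ m * T) → eval (pt l' y' s) P = 0) → P = 0)
    (σ : Type) [Fintype σ] (θ : σ → ℂ) (ι : σ → Fin n ⊕ Fin n × Fin m)
    (hι : Function.Injective ι) (hθ : θ = cd b l ∘ ι)
    (hren : ∀ (T : ℕ) (p : (Fin (M + 1) → Ix m (T ^ (q * e)) (T ^ q)) → ℤ)
      (s : Fin (M + 1) → Fin n → ℕ), ∃ P' : MvPolynomial σ ℤ, rename ι P' = PS p s)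
    (hTr : TrLe (M - 2) θ) : False := by
  obtain ⟨C, hC1, hCrit⟩ := h1 σ (M - 2) θ hTr
  set R0 : ℝ := 1 + 2 ^ m * ∑ i, ‖l i‖ with hR0
  have hsl : 0 ≤ ∑ i, ‖l i‖ := Finset.sum_nonneg (fun _ _ => norm_nonneg _)
  have hR01 : 1 ≤ R0 := by
    have : 0 ≤ (2 : ℝ) ^ m * ∑ i, ‖l i‖ := by positivity
    linarith
  obtain ⟨T1, hT1⟩ := hPsi R0 hR01
  obtain ⟨T2, hT2⟩ := hNZ
  set C2 : ℕ := (M + 1) * (1 + 2 ^ m * n * m) + (M + 1) * (q + q * m) + 1 +
    (M + 1) * (n * 2 ^ m) with hC2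
  have hC2pos : 1 ≤ C2 := by omega
  set K : ℝ := 4 * C * (C2 : ℝ) ^ (M - 1) with hK
  set T : ℕ := max (max T1 T2) (⌈K⌉₊ + 1) with hT
  have hTT1 : T1 ≤ T := le_trans (le_max_left _ _) (le_max_left _ _)
  have hTT2 : T2 ≤ T := le_trans (le_max_right _ _) (le_max_left _ _)
  have hT1' : 1 ≤ T := le_trans (Nat.le_add_left 1 _) (le_max_right _ _)
  have hTK : K ≤ T := by
    have h5 : ⌈K⌉₊ ≤ T := le_trans (Nat.le_succ _) (le_max_right _ _)
    exact (Nat.le_ceil K).trans (by exact_mod_cast h5)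
  clear_value T
  have hTr1 : (1 : ℝ) ≤ T := by exact_mod_cast hT1'
  obtain ⟨p, hp0, hpb, hpz⟩ := hT1 T hTT1
  set X : ℕ := C2 * T ^ (q + 1) with hX
  set V : ℝ := (T : ℝ) ^ ((q + 1) * (M - 1) + 2) / 4 with hV
  have hX1 : 1 ≤ X := Nat.mul_pos hC2pos (Nat.pos_of_ne_zero (by positivity))
  have hXr : (X : ℝ) = (C2 : ℝ) * (T : ℝ) ^ (q + 1) := by rw [hX]; push_cast; ring
  have hM2 : M - 2 + 1 = M - 1 := by omega
  have hVX : C * (X : ℝ) ^ (M - 2 + 1) ≤ V := by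
    rw [hM2, hXr, hV, mul_pow, ← pow_mul, pow_add]
    have h6 : 4 * C * (C2 : ℝ) ^ (M - 1) ≤ (T : ℝ) ^ 2 := by
      calc 4 * C * (C2 : ℝ) ^ (M - 1) = K := rfl
        _ ≤ T := hTK
        _ ≤ (T : ℝ) ^ 2 := by nlinarith
    have h7 : (0 : ℝ) ≤ (T : ℝ) ^ ((q + 1) * (M - 1)) := by positivity
    nlinarith [mul_le_mul_of_nonneg_left h6 h7]
  let PP : Set (MvPolynomial σ ℤ) :=
    {P | ∃ s : Fin (M + 1) → Fin n → ℕ, (∀ r i, s r i ≤ 2 ^ m * T) ∧ rename ι P = PS p s}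
  have hAq : T ^ (q * e) ≤ T ^ q := Nat.pow_le_pow_right hT1' (by nlinarith)
  have hSpos : 1 ≤ 2 ^ m * T := Nat.mul_pos (by positivity) hT1'
  have hTq1 : T ^ q * T = T ^ (q + 1) := by rw [pow_succ]
  have hTq2 : T ^ q ≤ T ^ (q + 1) := Nat.pow_le_pow_right hT1' (by omega)
  have hTq3 : T ≤ T ^ (q + 1) := by
    calc T = T ^ 1 := (pow_one T).symm
      _ ≤ T ^ (q + 1) := Nat.pow_le_pow_right hT1' (by omega)
  have hPP : ∀ P ∈ PP, P.totalDegree ≤ X ∧ len P ≤ Real.exp X ∧ ‖aeval θ P‖ ≤ Real.exp (-V) := by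
    rintro P ⟨s, hs, hPs⟩
    obtain ⟨_, hv2, hv3, hv4⟩ := h3 n m (T ^ (q * e)) (T ^ q) (M + 1) p s
    refine ⟨?_, ?_, ?_⟩
    · refine (totalDegree_le_rename hι P).trans ?_
      rw [hPs]
      refine (hv3 _ hs).trans ?_
      calc (M + 1) * (T ^ (q * e) + T ^ q * (2 ^ m * T) * n * m)
          ≤ (M + 1) * (T ^ (q + 1) + T ^ q * (2 ^ m * T) * n * m) := by
            apply Nat.mul_le_mul_left
            apply Nat.add_le_add_right
            exact hAq.trans hTq2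
        _ = (M + 1) * (1 + 2 ^ m * n * m) * T ^ (q + 1) := by rw [← hTq1]; ring
        _ ≤ C2 * T ^ (q + 1) := by
            apply Nat.mul_le_mul_right
            omega
    · rw [← len_rename hι P, hPs]
      have hpH : ∀ x, |(p x : ℝ)| ≤ (2 : ℝ) ^ (T ^ (q + 1)) := by
        intro x
        have := hpb x
        exact_mod_cast this
      refine (hv4 (2 ^ m * T) ((2 : ℝ) ^ (T ^ (q + 1))) hSpos hn hs hpH).trans ?_
      have f1 : ((((T ^ (q * e) : ℕ) : ℝ)) * ((T ^ q : ℕ) : ℝ) ^ m) ^ (M + 1) ≤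
          Real.exp (((M + 1) * (q + q * m) : ℕ) * ((T : ℝ) ^ (q + 1))) := by
        have g1 : (((T ^ (q * e) : ℕ) : ℝ)) * ((T ^ q : ℕ) : ℝ) ^ m ≤ (T : ℝ) ^ (q + q * m) := by
          have : T ^ (q * e) * (T ^ q) ^ m ≤ T ^ (q + q * m) := by
            rw [pow_add, pow_mul T q m]
            exact Nat.mul_le_mul_right _ hAq
          exact_mod_cast this
        calc ((((T ^ (q * e) : ℕ) : ℝ)) * ((T ^ q : ℕ) : ℝ) ^ m) ^ (M + 1)
            ≤ ((T : ℝ) ^ (q + q * m)) ^ (M + 1) := pow_le_pow_left₀ (by positivity) g1 _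
          _ = (T : ℝ) ^ ((M + 1) * (q + q * m)) := by rw [← pow_mul]; ring_nf
          _ ≤ Real.exp ((T : ℝ) * ((M + 1) * (q + q * m) : ℕ)) := pow_le_exp _ (by positivity) _
          _ ≤ _ := by
            apply Real.exp_le_exp.2
            rw [mul_comm]
            apply mul_le_mul_of_nonneg_left _ (by positivity)
            exact_mod_cast hTq3
      have f2 : (2 : ℝ) ^ (T ^ (q + 1)) ≤ Real.exp ((T : ℝ) ^ (q + 1)) := by
        have g1 : (2 : ℝ) ≤ Real.exp 1 := by have := Real.add_one_le_exp (1 : ℝ); linarith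
        calc (2 : ℝ) ^ (T ^ (q + 1)) ≤ (Real.exp 1) ^ (T ^ (q + 1)) :=
              pow_le_pow_left₀ (by norm_num) g1 _
          _ = Real.exp ((T : ℝ) ^ (q + 1)) := by
              rw [← Real.exp_nat_mul]; push_cast; ring_nf
      have f3 : ((n : ℝ) * ((2 ^ m * T : ℕ) : ℝ)) ^ (T ^ (q * e) * (M + 1)) ≤
          Real.exp (((M + 1) * (n * 2 ^ m) : ℕ) * ((T : ℝ) ^ (q + 1))) := by
        refine (pow_le_exp _ (by positivity) _).trans ?_
        apply Real.exp_le_exp.2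
        have : n * (2 ^ m * T) * (T ^ (q * e) * (M + 1)) ≤ (M + 1) * (n * 2 ^ m) * T ^ (q + 1) := by
          calc n * (2 ^ m * T) * (T ^ (q * e) * (M + 1))
              ≤ n * (2 ^ m * T) * (T ^ q * (M + 1)) := by
                apply Nat.mul_le_mul_left
                exact Nat.mul_le_mul_right _ hAq
            _ = (M + 1) * (n * 2 ^ m) * T ^ (q + 1) := by rw [← hTq1]; ring
        exact_mod_cast this
      calc ((((T ^ (q * e) : ℕ) : ℝ)) * ((T ^ q : ℕ) : ℝ) ^ m) ^ (M + 1) *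
            (2 : ℝ) ^ (T ^ (q + 1)) * ((n : ℝ) * ((2 ^ m * T : ℕ) : ℝ)) ^ (T ^ (q * e) * (M + 1))
          ≤ Real.exp (((M + 1) * (q + q * m) : ℕ) * ((T : ℝ) ^ (q + 1))) *
            Real.exp ((T : ℝ) ^ (q + 1)) *
            Real.exp (((M + 1) * (n * 2 ^ m) : ℕ) * ((T : ℝ) ^ (q + 1))) := by gcongr
        _ = Real.exp ((((M + 1) * (q + q * m) : ℕ) + 1 + ((M + 1) * (n * 2 ^ m) : ℕ)) *
              ((T : ℝ) ^ (q + 1))) := by
            rw [← Real.exp_add, ← Real.exp_add]; ring_nf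
        _ ≤ Real.exp X := by
            apply Real.exp_le_exp.2
            rw [hXr]
            apply mul_le_mul_of_nonneg_right _ (by positivity)
            have : (M + 1) * (q + q * m) + 1 + (M + 1) * (n * 2 ^ m) ≤ C2 := by omega
            exact_mod_cast this
    · have g1 : aeval θ P = aeval (cd b l) (PS p s) := by
        rw [← hPs, aeval_rename, hθ]
      rw [g1, hv2]
      refine hpz (fun r => ∑ i, (s r i : ℂ) * l i) (fun r => ?_)
      calc ‖∑ i, (s r i : ℂ) * l i‖ ≤ ∑ i, ‖(s r i : ℂ) * l i‖ := norm_sum_le _ _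
        _ ≤ ∑ i, ((2 : ℝ) ^ m * T) * ‖l i‖ := by
            refine Finset.sum_le_sum (fun i _ => ?_)
            rw [norm_mul]
            apply mul_le_mul_of_nonneg_right _ (norm_nonneg _)
            rw [Complex.norm_natCast]
            exact_mod_cast hs r i
        _ = (2 ^ m * ∑ i, ‖l i‖) * T := by rw [← Finset.mul_sum]; ring
        _ ≤ R0 * T := by
            apply mul_le_mul_of_nonneg_right _ (by positivity)
            linarith
  obtain ⟨θ', hz, hclose⟩ := hCrit X V hX1 hVX PP hPP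
  have hexp : Real.exp (-V / (C * (X : ℝ) ^ (M - 2))) ≤ Real.exp (-(T : ℝ) ^ 3) := by
    apply Real.exp_le_exp.2
    have hpos : 0 < C * (X : ℝ) ^ (M - 2) := by
      have : (0 : ℝ) < X := by exact_mod_cast hX1
      positivity
    rw [neg_div, neg_le_neg_iff, le_div_iff₀ hpos, hXr, hV, mul_pow, ← pow_mul]
    have e1 : (q + 1) * (M - 1) + 2 = (q + 1) * (M - 2) + (q + 3) := by
      have : M - 1 = M - 2 + 1 := by omega
      rw [this]; ring
    rw [e1, pow_add (T : ℝ) ((q + 1) * (M - 2)), pow_add (T : ℝ) q 3]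
    have h6 : 4 * (C * (C2 : ℝ) ^ (M - 2)) ≤ (T : ℝ) ^ q := by
      calc 4 * (C * (C2 : ℝ) ^ (M - 2)) ≤ 4 * (C * (C2 : ℝ) ^ (M - 1)) := by
            have : (C2 : ℝ) ^ (M - 2) ≤ (C2 : ℝ) ^ (M - 1) :=
              pow_le_pow_right₀ (by exact_mod_cast hC2pos) (by omega)
            have hC0 : 0 ≤ C := by linarith
            nlinarith [mul_le_mul_of_nonneg_left this hC0]
        _ = K := by rw [hK]; ring
        _ ≤ T := hTK
        _ = (T : ℝ) ^ 1 := (pow_one _).symm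
        _ ≤ (T : ℝ) ^ q := pow_le_pow_right₀ hTr1 hq
    have h7 : (0 : ℝ) ≤ (T : ℝ) ^ ((q + 1) * (M - 2)) * (T : ℝ) ^ 3 := by positivity
    nlinarith [mul_le_mul_of_nonneg_left h6 h7]
  -- the extended point
  set θ'' : Fin n ⊕ Fin n × Fin m → ℂ := Function.extend ι θ' (cd b l) with hθ''
  have hclose'' : ∀ k, ‖θ'' k - cd b l k‖ ≤ Real.exp (-(T : ℝ) ^ 3) := by
    intro k
    by_cases hk : ∃ i, ι i = k
    · obtain ⟨i, rfl⟩ := hk
      rw [hθ'', hι.extend_apply]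
      have := (hclose i).trans hexp
      rw [hθ] at this
      exact this
    · rw [hθ'', Function.extend_apply' _ _ _ hk, sub_self, norm_zero]
      exact (Real.exp_pos _).le
  have hcomp : θ'' ∘ ι = θ' := by
    funext i
    rw [Function.comp_apply, hθ'', hι.extend_apply]
  let l' : Fin n → ℂ := fun i => θ'' (Sum.inl i)
  let y' : Fin n → Fin m → ℂ := fun i j => θ'' (Sum.inr (i, j))
  have hel : Sum.elim l' (fun q : Fin n × Fin m => y' q.1 q.2) = θ'' := by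
    funext k
    rcases k with i | ⟨i, j⟩ <;> rfl
  have hzero : ∀ s : Fin (M + 1) → Fin n → ℕ, (∀ r i, s r i ≤ 2 ^ m * T) →
      ∑ x, (p x : ℂ) * ∏ r, (pt l' y' (s r) (Fin.last m) ^ ((x r).1 : ℕ) *
        ∏ j : Fin m, pt l' y' (s r) j.castSucc ^ ((x r).2 j : ℕ)) = 0 := by
    intro s hs
    obtain ⟨hv1, _⟩ := h3 n m (T ^ (q * e)) (T ^ q) (M + 1) p s
    rw [← hv1 l' y', hel]
    obtain ⟨P', hP'⟩ := hren T p s
    rw [← hP', aeval_rename, hcomp]
    exact hz P' ⟨s, hs, hP'⟩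
  have hpC : (fun x => (p x : ℂ)) ≠ 0 := by
    intro h0
    apply hp0
    funext x
    have := congrFun h0 x
    simpa using this
  obtain ⟨r, hr0, hr⟩ := h4 (Ix m (T ^ (q * e)) (T ^ q)) {s : Fin n → ℕ // ∀ i, s i ≤ 2 ^ m * T}
    (M + 1) (fun x s => pt l' y' s.1 (Fin.last m) ^ (x.1 : ℕ) *
        ∏ j : Fin m, pt l' y' s.1 j.castSucc ^ (x.2 j : ℕ)) (fun x => (p x : ℂ)) hpC
    (fun x => hzero (fun r => (x r).1) (fun r i => (x r).2 i))
  obtain ⟨Q, hQ0, hQd, hQz⟩ := noQ (B := T ^ q) hAq le_rfl r hr0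
    {v | ∃ s : Fin n → ℕ, (∀ i, s i ≤ 2 ^ m * T) ∧ v = pt l' y' s} (by
      rintro v ⟨s, hs, rfl⟩
      exact hr ⟨s, hs⟩)
  apply hQ0
  apply hT2 T hTT2 l' y' _ _ Q hQd
  · intro s hs
    exact hQz _ ⟨s, hs, rfl⟩
  · intro i
    have := hclose'' (Sum.inl i)
    simpa [cd, l'] using this
  · intro i j
    have := hclose'' (Sum.inr (i, j))
    simpa [cd, y'] using this

end TIe

theorem pr_TIe (h1 : S_Crit) (h2 : S_Psi) (h3 : S_Val) (h4 : S_Tensor) (h5 : S_NoZero) :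
    S_TIe := by
  intro m e he hM
  obtain ⟨n₀, hn₀⟩ := h5 m ((m + e + 2) ^ 2)
  refine ⟨max 1 n₀, ?_⟩
  intro b hb hbl n hn l hl hla
  have hn1 : 1 ≤ n := (le_max_left _ _).trans hn
  have hNZ := hn₀ b hb hbl n ((le_max_right _ _).trans hn) l hl hla
  have hq : 1 ≤ (m + e + 2) ^ 2 := Nat.one_le_pow _ _ (by omega)
  constructor
  · intro _ hTr
    exact TIe.core h1 h3 h4 m (m + e) ((m + e + 2) ^ 2) e hM hq he n hn1 b l
      (fun R0 hR0 => h2 m e he hM b R0 hR0) hNZ (Fin n ⊕ Fin n × Fin m) (cd b l) id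
      Function.injective_id rfl (fun T p s => ⟨PS p s, by rw [rename_id]; rfl⟩) hTr
  · intro he0 hTr
    subst he0
    exact TIe.core h1 h3 h4 m (m + 0) ((m + 0 + 2) ^ 2) 0 hM hq he n hn1 b l
      (fun R0 hR0 => h2 m 0 he hM b R0 hR0) hNZ (Fin n × Fin m)
      (fun q : Fin n × Fin m => Complex.exp (b q.2 * l q.1)) Sum.inr
      Sum.inr_injective rfl (fun T p s => TIe.ren0 (by simp) p s) hTr

end Pool.Agent.Work.MP_327059_nt.GL
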