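import Mathlib
import Pool.Agent.Work.MP_327059_nt.Bd.B01
import Pool.Agent.Work.MP_327059_nt.Bd.B08
import Pool.Agent.Work.MP_327059_nt.Bd.B09
import Pool.Agent.Work.MP_327059_nt.Bd.B10
import Pool.Agent.Work.MP_327059_nt.Bd.B12
import Pool.Agent.Work.MP_327059_nt.Bd.B11
import Pool.Agent.Work.MP_327059_nt.GL.T_TIe

/-!
# Assembly of all items: the criterion, the transcendence input, Theorem G
-/

set_option autoImplicit false

namespace Pool.Agent.Work.MP_327059_nt.GL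

theorem x_TrBasis : S_TrBasis := pr_TrBasis

theorem x_TrCount : S_TrCount := pr_TrCount

theorem x_InitDer : S_InitDer := pr_InitDer

theorem x_DenseK : S_DenseK := pr_DenseK

theorem x_AIZ : S_AIZ := pr_AIZ

theorem x_Princ : S_Princ := pr_Princ x_AIZ

theorem x_Init : S_Init := pr_Init x_TrBasis x_TrCount x_InitDer x_DenseK x_Princ

theorem x_Orb : S_Orb := pr_Orb

theorem x_FacN : S_FacN := pr_FacN x_Orb

theorem x_ValG : S_ValG := pr_ValG

theorem x_NormInt : S_NormInt := pr_NormInt x_ValG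

theorem x_ResWD : S_ResWD := pr_ResWD

theorem x_NormGal : S_NormGal := pr_NormGal x_ResWD

theorem x_NormN : S_NormN := pr_NormN x_NormInt x_NormGal x_AIZ

theorem x_Trans : S_Trans := pr_Trans x_AIZ

theorem x_Gelf1 : S_Gelf1 := pr_Gelf1

theorem x_GelfPt : S_GelfPt := pr_GelfPt x_Gelf1

theorem x_LIN : S_LIN := pr_LIN x_GelfPt

theorem x_LenEv : S_LenEv := pr_LenEv

theorem x_Clos : S_Clos := pr_Clos x_LIN x_DenseK x_LenEv

theorem x_SpecN : S_SpecN := pr_SpecN x_FacN x_NormN x_Trans x_Clos x_AIZ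

theorem x_Re : S_Re := pr_Re

theorem x_AI : S_AI := pr_AI x_AIZ

theorem x_CountAlg : S_CountAlg := pr_CountAlg x_AI x_TrCount x_TrBasis

theorem x_Spec0 : S_Spec0 := pr_Spec0 x_SpecN x_Re x_AI x_CountAlg

theorem x_GenZero : S_GenZero := pr_GenZero

theorem x_DimDrop : S_DimDrop := pr_DimDrop x_AIZ

theorem x_StepAlg : S_StepAlg := pr_StepAlg x_GenZero x_DimDrop

theorem x_MetPt : S_MetPt := pr_MetPt x_LIN x_LenEv

theorem x_DegGrow : S_DegGrow := pr_DegGrow

theorem x_Sup : S_Sup := pr_Sup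

theorem x_MetH : S_MetH := pr_MetH x_MetPt x_DegGrow x_Sup x_LenEv

theorem x_ThEv : S_ThEv := pr_ThEv

theorem x_PEst : S_PEst := pr_PEst

theorem x_MetTh : S_MetTh := pr_MetTh x_LIN x_Sup x_LenEv x_ThEv x_PEst x_MetH

theorem x_Gelf : S_Gelf := pr_Gelf x_Sup x_GelfPt x_LenEv

theorem x_Pick : S_Pick := pr_Pick x_Gelf x_LenEv x_ThEv

theorem x_CStep0 : S_CStep0 := pr_CStep0 x_Spec0 x_StepAlg x_MetH x_MetTh x_Pick x_LenEv x_ThEv

theorem x_PermD : S_PermD := pr_PermD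

theorem x_PermM : S_PermM := pr_PermM

theorem x_CStep : S_CStep := pr_CStep x_CStep0 x_PermD x_PermM

theorem x_Desc : S_Desc := pr_Desc x_CStep x_LenEv

theorem x_SpecI : S_SpecI := pr_SpecI x_Spec0 x_PermD

theorem x_FarMove : S_FarMove := pr_FarMove x_SpecI x_LIN

theorem x_Far : S_Far := pr_Far x_FarMove x_Sup x_LenEv x_ThEv

theorem x_Hom : S_Hom := pr_Hom

theorem x_Crit : S_Crit := pr_Crit x_Init x_Desc x_Far x_Hom x_LenEv

theorem x_PLm : S_PLm := pr_PLm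

theorem x_Tay : S_Tay := pr_Tay

theorem x_Psi : S_Psi := pr_Psi x_PLm x_Tay

theorem x_Val : S_Val := pr_Val

theorem x_Tensor : S_Tensor := pr_Tensor

theorem x_ZE0 : S_ZE0 := pr_ZE0

theorem x_ZRes : S_ZRes := pr_ZRes

theorem x_Tr : S_Tr := pr_Tr

theorem x_ZStep : S_ZStep := pr_ZStep x_ZRes x_Tr

theorem x_ZE : S_ZE := pr_ZE x_ZE0 x_ZStep

theorem x_RankBox : S_RankBox := pr_RankBox

theorem x_ManyInd : S_ManyInd := pr_ManyInd x_RankBox

theorem x_LiL : S_LiL := pr_LiL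

theorem x_LiB : S_LiB := pr_LiB

theorem x_Sieg : S_Sieg := pr_Sieg

theorem x_Pert : S_Pert := pr_Pert

theorem x_NearLog : S_NearLog := pr_NearLog

theorem x_NoRelY : S_NoRelY := pr_NoRelY x_ManyInd x_LiL x_LiB x_Sieg x_Pert x_NearLog

theorem x_NoRelL : S_NoRelL := pr_NoRelL x_LiL

theorem x_NoZero : S_NoZero := pr_NoZero x_ZE x_NoRelY x_NoRelL

theorem x_TIe : S_TIe := pr_TIe x_Crit x_Psi x_Val x_Tensor x_NoZero

theorem x_TI : S_TI := pr_TI x_TIe

theorem x_Stab : S_Stab := pr_Stab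

theorem x_AxKey : S_AxKey := pr_AxKey

theorem x_AxImg : S_AxImg := pr_AxImg x_Stab x_AxKey

theorem x_AxOut : S_AxOut := pr_AxOut x_AxImg

theorem x_GenComb : S_GenComb := pr_GenComb

theorem x_Cases : S_Cases := pr_Cases x_GenComb

theorem x_GenRank : S_GenRank := pr_GenRank

theorem x_RankInc : S_RankInc := pr_RankInc

theorem x_AnnExt : S_AnnExt := pr_AnnExt

theorem x_DoubleAnn : S_DoubleAnn := pr_DoubleAnn

theorem x_LinAlg : S_LinAlg := pr_LinAlg x_GenRank x_RankInc x_AnnExt x_DoubleAnn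

theorem x_GCore : S_GCore := pr_GCore x_TI x_AxOut x_Cases x_LinAlg x_DenseK

theorem x_GP : S_GP := pr_GP

theorem x_Main : S_Main := pr_Main x_GCore x_GP

theorem x_GCoreB : S_GCoreB := pr_GCoreB x_TI x_AxOut x_Cases x_LinAlg x_DenseK

theorem x_MainB : S_MainB := pr_MainB x_GCoreB x_GP

end Pool.Agent.Work.MP_327059_nt.GL
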