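import Mathlib

/-!
# Density of the good points
-/

set_option autoImplicit false

namespace Pool.Agent.Work.MP_327059_nt.GL

open MvPolynomial

/-- A polynomial of total degree `≤ D` in `n` variables has at most `D (2N+1)^(n-1)` zeros in the
integer box `[-N,N]^n`. -/
theorem den_box {n : ℕ} (P : MvPolynomial (Fin n) ℂ) (hP : P ≠ 0) (D N : ℕ)
    (hD : P.totalDegree ≤ D) (hn : 1 ≤ n) (B : Set (Fin n → ℤ))
    (hB : ∀ v ∈ B, (∀ i, |v i| ≤ (N : ℤ)) ∧ eval (fun i => ((v i : ℤ) : ℂ)) P = 0) :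
    B.ncard ≤ D * (2 * N + 1) ^ (n - 1) := by
  classical
  set S : Finset ℂ := (Finset.Icc (-(N : ℤ)) N).image (fun k : ℤ => (k : ℂ)) with hS
  have hcard : S.card = 2 * N + 1 := by
    rw [hS, Finset.card_image_of_injective _ Int.cast_injective, Int.card_Icc]
    omega
  set Z : Finset (Fin n → ℂ) := (Fintype.piFinset fun _ : Fin n => S).filter
    (fun x => eval x P = 0) with hZ
  have h1 := schwartz_zippel_totalDegree hP S
  have h2 : (Z.card : ℚ≥0) / ((S.card : ℚ≥0) ^ n) ≤ (P.totalDegree : ℚ≥0) / (S.card : ℚ≥0) := h1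
  have hSpos : (0 : ℚ≥0) < (S.card : ℚ≥0) := by rw [hcard]; positivity
  have h3 : Z.card ≤ D * (2 * N + 1) ^ (n - 1) := by
    rw [div_le_div_iff₀ (by positivity) hSpos] at h2
    have h4 : (Z.card : ℚ≥0) * S.card ≤ (P.totalDegree : ℚ≥0) * (S.card : ℚ≥0) ^ (n - 1) * S.card := by
      calc (Z.card : ℚ≥0) * S.card ≤ (P.totalDegree : ℚ≥0) * (S.card : ℚ≥0) ^ n := h2
        _ = (P.totalDegree : ℚ≥0) * (S.card : ℚ≥0) ^ (n - 1) * S.card := by
          rw [mul_assoc, ← pow_succ, Nat.sub_add_cancel hn]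
    have h5 := le_of_mul_le_mul_right h4 hSpos
    have h6 : (Z.card : ℚ≥0) ≤ ((D * (2 * N + 1) ^ (n - 1) : ℕ) : ℚ≥0) := by
      refine h5.trans ?_
      rw [hcard]
      push_cast
      gcongr
    exact_mod_cast h6
  have hfin : B.Finite := by
    refine (Set.Finite.subset (Fintype.piFinset fun _ : Fin n =>
      Finset.Icc (-(N : ℤ)) N).finite_toSet ?_)
    intro v hv
    rw [Finset.mem_coe, Fintype.mem_piFinset]
    intro i
    rw [Finset.mem_Icc]
    exact abs_le.1 ((hB v hv).1 i)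
  rw [Set.ncard_eq_toFinset_card B hfin]
  refine le_trans ?_ h3
  refine Finset.card_le_card_of_injOn (fun v => fun i => ((v i : ℤ) : ℂ)) ?_ ?_
  · intro v hv
    have hv' : v ∈ B := by simpa using hv
    rw [hZ]
    simp only [Finset.coe_filter, Fintype.mem_piFinset, Set.mem_ofPred_eq]
    refine ⟨fun i => ?_, (hB v hv').2⟩
    rw [hS, Finset.mem_image]
    exact ⟨v i, Finset.mem_Icc.2 (abs_le.1 ((hB v hv').1 i)), rfl⟩
  · intro v _ w _ h
    funext i
    have h7 : ((v i : ℤ) : ℂ) = ((w i : ℤ) : ℂ) := congrFun h i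
    exact_mod_cast h7

end Pool.Agent.Work.MP_327059_nt.GL
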