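import Mathlib
import Pool.Agent.Work.MP_327059_nt.Bd.B01

set_option autoImplicit false

namespace Pool.Agent.Work.MP_327059_nt.GL

/-- an element algebraic over a subfield of an algebraically closed subfield lies in it -/
theorem DerPres_mem (K F : IntermediateField ℚ ℂ) (hF : IsAlgClosed F) (hKF : K ≤ F) (f : ℂ)
    (hf : IsAlgebraic K f) : f ∈ F := by
  obtain ⟨p, hp0, hp⟩ := hf
  have hf' : IsAlgebraic F f := by
    refine ⟨p.map (IntermediateField.inclusion hKF).toRingHom, ?_, ?_⟩
    · exact (Polynomial.map_ne_zero_iff (IntermediateField.inclusion hKF).toRingHom.injective).2 hp0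
    · rw [Polynomial.aeval_def, Polynomial.eval₂_map]
      exact hp
  have hdeg := IsAlgClosed.degree_eq_one_of_irreducible F (minpoly.irreducible hf'.isIntegral)
  obtain ⟨y, hy⟩ := minpoly.mem_range_of_degree_eq_one F f hdeg
  rw [← hy]
  exact y.2

theorem pr_DerPres : S_DerPres := by
  intro S F hF hSF δ hδ f hf
  have hKF : IntermediateField.adjoin ℚ S ≤ F := IntermediateField.adjoin_le_iff.2 hSF
  have h1 : ∀ x ∈ IntermediateField.adjoin ℚ S, δ x ∈ F := by
    intro x hx
    induction hx using IntermediateField.adjoin_induction with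
    | mem x hx => exact hδ x hx
    | algebraMap x => rw [δ.map_algebraMap x]; exact F.zero_mem
    | add x y _ _ h1 h2 => rw [map_add]; exact F.add_mem h1 h2
    | inv x hx h =>
      rw [Derivation.leibniz_inv, smul_eq_mul]
      exact F.mul_mem (F.neg_mem (F.pow_mem (F.inv_mem (hKF hx)) 2)) h
    | mul x y hx hy h1 h2 =>
      rw [Derivation.leibniz, smul_eq_mul, smul_eq_mul]
      exact F.add_mem (F.mul_mem (hKF hx) h2) (F.mul_mem (hKF hy) h1)
  have hfF : f ∈ F := DerPres_mem _ F hF hKF f hf
  have haev : ∀ P : Polynomial (IntermediateField.adjoin ℚ S), Polynomial.aeval f P ∈ F := by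
    intro P
    rw [Polynomial.aeval_eq_sum_range]
    refine F.sum_mem ?_
    intro i _
    rw [Algebra.smul_def]
    exact F.mul_mem (hKF (P.coeff i).2) (F.pow_mem hfF i)
  have h2 : ∀ P : Polynomial (IntermediateField.adjoin ℚ S),
      δ (Polynomial.aeval f P) - Polynomial.aeval f (Polynomial.derivative P) * δ f ∈ F := by
    intro P
    induction P using Polynomial.induction_on' with
    | add p q hp hq =>
      have e : δ (Polynomial.aeval f (p + q)) -
          Polynomial.aeval f (Polynomial.derivative (p + q)) * δ f =
          (δ (Polynomial.aeval f p) - Polynomial.aeval f (Polynomial.derivative p) * δ f) +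
          (δ (Polynomial.aeval f q) - Polynomial.aeval f (Polynomial.derivative q) * δ f) := by
        simp only [map_add]
        ring
      rw [e]
      exact F.add_mem hp hq
    | monomial n a =>
      have e : δ (Polynomial.aeval f (Polynomial.monomial n a)) -
          Polynomial.aeval f (Polynomial.derivative (Polynomial.monomial n a)) * δ f =
          f ^ n * δ (a : ℂ) := by
        rw [Polynomial.derivative_monomial, Polynomial.aeval_monomial, Polynomial.aeval_monomial,
          Derivation.leibniz, Derivation.leibniz_pow]
        simp only [smul_eq_mul, nsmul_eq_mul, map_mul, map_natCast]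
        change (a : ℂ) * _ + _ * δ (a : ℂ) - (a : ℂ) * _ * _ * _ = _
        ring
      rw [e]
      exact F.mul_mem (F.pow_mem hfF n) (h1 _ a.2)
  have hint : IsIntegral (IntermediateField.adjoin ℚ S) f := hf.isIntegral
  have hmin : Polynomial.aeval f (minpoly (IntermediateField.adjoin ℚ S) f) = 0 :=
    minpoly.aeval _ f
  have hsep : Polynomial.aeval f (Polynomial.derivative
      (minpoly (IntermediateField.adjoin ℚ S) f)) ≠ 0 :=
    (minpoly.irreducible hint).separable.aeval_derivative_ne_zero hmin
  have h3 := h2 (minpoly (IntermediateField.adjoin ℚ S) f)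
  rw [hmin, map_zero, zero_sub] at h3
  have h4 := F.neg_mem h3
  rw [neg_neg] at h4
  have h5 := F.mul_mem (F.inv_mem (haev (Polynomial.derivative
      (minpoly (IntermediateField.adjoin ℚ S) f)))) h4
  rwa [inv_mul_cancel_left₀ hsep] at h5

end Pool.Agent.Work.MP_327059_nt.GL
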